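import Pool.Agent.W154.LF.Root
import Pool.Agent.W254.LF.Stm4

/-!
Leopoldt's conjecture in families (helper254): existence of the cluster data.
-/

set_option autoImplicit false

namespace Pool.Agent.W753.LF

open Polynomial NumberField Pool.Agent.W254.LF Pool.Agent.W289.SL Pool.Agent.W154.LF

/-- the algebraic closure of `ℚ` -/
abbrev Om : Type := AlgebraicClosure ℚ

section

variable {p : ℕ} [Fact p.Prime]

lemma norm_le_of_prod {m : ℕ} (α : Fin m → ℂ_[p]) (hα : ∀ i, ‖α i‖ ≤ 1) (t x : ℂ_[p])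
    (ht : ‖t‖ ≤ 1) (h : (x - t) * ∏ i, (x - α i) = 1) : ‖x‖ ≤ 1 := by
  by_contra hcon
  push Not at hcon
  have key : ∀ z : ℂ_[p], ‖z‖ ≤ 1 → ‖x - z‖ = ‖x‖ := by
    intro z hz
    have h1 : ‖-z‖ < ‖x‖ := by
      rw [norm_neg]; exact hz.trans_lt hcon
    rw [sub_eq_add_neg, IsUltrametricDist.norm_add_eq_max_of_norm_ne_norm h1.ne',
      max_eq_left h1.le]
  have h2 := congrArg norm h
  rw [norm_mul, norm_prod, norm_one, key t ht, Finset.prod_congr rfl fun i _ => key (α i) (hα i)]
    at h2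
  rw [Finset.prod_const] at h2
  have h3 : 1 ≤ ‖x‖ ^ (Finset.univ : Finset (Fin m)).card := one_le_pow₀ hcon.le
  have h4 : ‖x‖ * 1 ≤ ‖x‖ * ‖x‖ ^ (Finset.univ : Finset (Fin m)).card :=
    mul_le_mul_of_nonneg_left h3 (norm_nonneg _)
  rw [h2] at h4
  linarith

lemma norm_sub_le {x z : ℂ_[p]} (hx : ‖x‖ ≤ 1) (hz : ‖z‖ ≤ 1) : ‖x - z‖ ≤ 1 :=
  (OO p).sub_mem (show x ∈ OO p from hx) (show z ∈ OO p from hz)

lemma norm_sub_of_prod {m : ℕ} (α : Fin m → ℂ_[p]) (hα : ∀ i, ‖α i‖ ≤ 1) (t x : ℂ_[p])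
    (ht : ‖t‖ ≤ 1) (h : (x - t) * ∏ i, (x - α i) = 1) (i : Fin m) : ‖x - α i‖ = 1 := by
  have hx := norm_le_of_prod α hα t x ht h
  have h2 := congrArg norm h
  rw [norm_mul, norm_prod, norm_one] at h2
  have h3 : ∏ i, ‖x - α i‖ = 1 := by
    apply le_antisymm (Finset.prod_le_one (fun _ _ => norm_nonneg _)
      (fun i _ => norm_sub_le hx (hα i)))
    calc (1 : ℝ) = ‖x - t‖ * ∏ i, ‖x - α i‖ := h2.symm
      _ ≤ 1 * ∏ i, ‖x - α i‖ :=
          mul_le_mul_of_nonneg_right (norm_sub_le hx ht)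
            (Finset.prod_nonneg fun _ _ => norm_nonneg _)
      _ = _ := one_mul _
  exact prod_eq_one Finset.univ _ (fun _ _ => norm_nonneg _)
    (fun i _ => norm_sub_le hx (hα i)) h3 i (Finset.mem_univ i)

lemma norm_eval_sub (f : ℤ[X]) {x z : ℂ_[p]} (hx : ‖x‖ ≤ 1) (hz : ‖z‖ ≤ 1) :
    ‖(f.map (Int.castRingHom ℂ_[p])).eval x - (f.map (Int.castRingHom ℂ_[p])).eval z‖ ≤
      ‖x - z‖ := by
  have key : ∀ (w : ℂ_[p]) (hw : ‖w‖ ≤ 1), (f.map (Int.castRingHom ℂ_[p])).eval w =
      ((f.map (Int.castRingHom (OO p))).eval (⟨w, hw⟩ : OO p) : OO p) := by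
    intro w hw
    have h1 := Polynomial.hom_eval₂ f (Int.castRingHom (OO p)) (OO p).subtype ⟨w, hw⟩
    have h2 : (OO p).subtype.comp (Int.castRingHom (OO p)) = Int.castRingHom ℂ_[p] :=
      RingHom.ext_int _ _
    rw [h2] at h1
    rw [eval_map, eval_map]
    exact h1.symm
  obtain ⟨c, hc⟩ := Polynomial.sub_dvd_eval_sub (⟨x, hx⟩ : OO p) ⟨z, hz⟩
    (f.map (Int.castRingHom (OO p)))
  have h3 := congrArg (fun w : OO p => (w : ℂ_[p])) hc
  rw [key x hx, key z hz]
  have h4 : (((f.map (Int.castRingHom (OO p))).eval (⟨x, hx⟩ : OO p) : OO p) : ℂ_[p]) -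
      (((f.map (Int.castRingHom (OO p))).eval (⟨z, hz⟩ : OO p) : OO p) : ℂ_[p]) =
      (x - z) * (c : ℂ_[p]) := h3
  rw [h4, norm_mul]
  calc ‖x - z‖ * ‖(c : ℂ_[p])‖ ≤ ‖x - z‖ * 1 :=
        mul_le_mul_of_nonneg_left (norm_OO p c) (norm_nonneg _)
    _ = _ := mul_one _

end

/-- indexing of the roots -/
lemma idx {K : Type} [Field K] [IsAlgClosed K] (Q : K[X]) (hQ : Q.Monic) (d : ℕ)
    (hd : Q.natDegree = d) : ∃ y : Fin d → K, Q = ∏ j, (X - C (y j)) := by
  have h1 : Q.roots.card = Q.natDegree := (IsAlgClosed.splits Q).natDegree_eq_card_roots.symm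
  obtain ⟨l, hl⟩ := Quot.exists_rep Q.roots
  have hl' : (l : Multiset K) = Q.roots := hl
  have h2 : l.length = d := by
    rw [← hd, ← h1, ← hl']; rfl
  subst h2
  refine ⟨fun j => l[j], ?_⟩
  have h3 := (IsAlgClosed.splits Q).eq_prod_roots
  rw [hQ.leadingCoeff, C_1, one_mul, ← hl'] at h3
  have h4 : ∏ j : Fin l.length, (X - C (l[(j : ℕ)])) = (l.map fun a => X - C a).prod :=
    Fin.prod_univ_fun_getElem l (fun a => X - C a)
  rw [h3, Multiset.map_coe, Multiset.prod_coe]
  exact h4.symm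

/-- elements of the algebraic closure, almost all primes -/
lemma FRO (h : S_FRK) (β : Om) : ∃ P₀ : ℕ, ∀ (p : ℕ) [Fact p.Prime], P₀ < p →
    ∀ τ : Om →+* ℂ_[p], Fr p (τ β) := by
  have hi : IsIntegral ℚ β := (AlgebraicClosure.isAlgebraic ℚ).isIntegral.isIntegral β
  have hfd : FiniteDimensional ℚ (IntermediateField.adjoin ℚ {β}) :=
    IntermediateField.adjoin.finiteDimensional hi
  have hnf : NumberField (IntermediateField.adjoin ℚ {β}) := NumberField.mk
  obtain ⟨P₀, hP⟩ := h (IntermediateField.adjoin ℚ {β})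
    ⟨β, IntermediateField.mem_adjoin_simple_self ℚ β⟩
  refine ⟨P₀, fun p _ hp τ => ?_⟩
  exact hP p hp (τ.comp (IntermediateField.adjoin ℚ {β}).val.toRingHom)

lemma FRF (h : S_FRK) (D : Finset Om) : ∃ P₀ : ℕ, ∀ (p : ℕ) [Fact p.Prime], P₀ < p →
    ∀ τ : Om →+* ℂ_[p], ∀ β ∈ D, Fr p (τ β) := by
  choose P₀ hP using FRO h
  refine ⟨D.sup P₀, fun p _ hp τ β hβ => ?_⟩
  exact hP β p (lt_of_le_of_lt (Finset.le_sup hβ) hp) τ

lemma exists_emb (p : ℕ) [Fact p.Prime] : Nonempty (Om →+* ℂ_[p]) := by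
  have h : Algebra.IsAlgebraic ℚ Om := by
    convert AlgebraicClosure.isAlgebraic ℚ
    · rfl
    · exact Subsingleton.elim _ _
  exact ⟨(IsAlgClosed.lift (R := ℚ) (S := Om) (M := ℂ_[p])).toRingHom⟩

theorem t_DATA (hFRR : S_FRR) (hFRK : S_FRK) (hFRS : S_FRS) (hSEPR : S_SEPR) : S_DATA := by
  classical
  intro m P hP hsep hdeg hm
  -- the algebraic closure
  set PO : Om[X] := P.map (Int.castRingHom Om) with hPO
  have hPOm : PO.Monic := hP.map _
  have hPOd : PO.natDegree = m := by rw [hPO, hP.natDegree_map, hdeg]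
  have hPOs : PO.Separable := by
    have : PO = (P.map (Int.castRingHom ℚ)).map (algebraMap ℚ Om) := by
      rw [hPO, Polynomial.map_map]
      congr 1
    rw [this]
    exact hsep.map
  obtain ⟨a, ha⟩ := idx PO hPOm m hPOd
  have hainj : Function.Injective a := by
    rw [← Polynomial.separable_prod_X_sub_C_iff, ← ha]
    exact hPOs
  set G : ℤ[X] := P ^ 2 + derivative P with hG
  have hGm : G.Monic := by
    apply Monic.add_of_left (hP.pow 2)
    rw [degree_pow]
    have h1 : (derivative P).degree < P.degree := by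
      apply Polynomial.degree_derivative_lt
      rintro rfl
      simp at hdeg
      omega
    refine h1.trans_le ?_
    have h2 : (0 : WithBot ℕ) ≤ P.degree := by
      rw [Polynomial.degree_eq_natDegree hP.ne_zero]
      exact_mod_cast Nat.zero_le _
    rw [two_nsmul]
    exact le_add_of_nonneg_left h2
  set GO : Om[X] := G.map (Int.castRingHom Om) with hGO
  obtain ⟨b, hb⟩ := idx GO (hGm.map _) _ rfl
  -- `P` does not vanish at the roots of `G`
  have hPb : ∀ k, PO.eval (b k) ≠ 0 := by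
    intro k h0
    have h1 : GO.eval (b k) = 0 := by
      rw [hb, eval_prod]
      exact Finset.prod_eq_zero (Finset.mem_univ k) (by simp)
    have h2 : GO = PO ^ 2 + derivative PO := by
      rw [hGO, hG, Polynomial.map_add, Polynomial.map_pow, ← derivative_map]
    rw [h2, eval_add, eval_pow, h0] at h1
    have h3 : (derivative PO).eval (b k) = 0 := by simpa using h1
    obtain ⟨u, v, huv⟩ := hPOs
    have := congrArg (eval (b k)) huv
    rw [eval_add, eval_mul, eval_mul, h0, h3] at this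
    simp at this
  set tt : Fin GO.natDegree → Om := fun k => b k - (PO.eval (b k))⁻¹ with htt
  set FO : Fin GO.natDegree → Om[X] := fun k => (X - C (tt k)) * PO - 1 with hFO
  have hFOm : ∀ k, (FO k).Monic := by
    intro k
    have h1 : ((X - C (tt k)) * PO).Monic := (monic_X_sub_C _).mul hPOm
    rw [hFO]
    simp only
    rw [sub_eq_add_neg]
    apply h1.add_of_left
    rw [degree_neg, degree_one, Polynomial.degree_mul, degree_X_sub_C]
    have h2 : (0 : WithBot ℕ) ≤ PO.degree := by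
      rw [Polynomial.degree_eq_natDegree hPOm.ne_zero]
      exact_mod_cast Nat.zero_le _
    calc (0 : WithBot ℕ) < 1 := by exact_mod_cast Nat.one_pos
      _ ≤ 1 + PO.degree := le_add_of_nonneg_right h2
  set S0 : Finset Om := Finset.univ.image a ∪ Finset.univ.image tt ∪
    Finset.univ.biUnion (fun k => (FO k).roots.toFinset) with hS0
  have hS0a : ∀ i, a i ∈ S0 := fun i => by simp [hS0]
  have hS0t : ∀ k, tt k ∈ S0 := fun k => by simp [hS0]
  have hS0r : ∀ k, ∀ x ∈ (FO k).roots.toFinset, x ∈ S0 := fun k x hx => by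
    rw [hS0]
    apply Finset.mem_union_right
    rw [Finset.mem_biUnion]
    exact ⟨k, Finset.mem_univ _, hx⟩
  set D1 : Finset Om := (S0 ×ˢ S0).image (fun q => q.1 - q.2) with hD1
  set D : Finset Om := S0 ∪ D1 ∪ D1.image (fun q => q⁻¹) with hD
  obtain ⟨P₀, hP₀⟩ := FRF hFRK D
  refine ⟨max P₀ 2, fun p _ hp L hL => ?_⟩
  have hp2 : p ≠ 2 := by
    have := lt_of_le_of_lt (le_max_right P₀ 2) hp
    omega
  obtain ⟨τ⟩ := exists_emb p
  have hFr : ∀ β ∈ D, Fr p (τ β) := hP₀ p (lt_of_le_of_lt (le_max_left _ _) hp) τ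
  obtain ⟨fr1, fr2, fr3, fr4, fr5⟩ := hFRR p
  have hFr0 : ∀ β ∈ S0, Fr p (τ β) := fun β hβ => hFr β (by simp [hD, hβ])
  have hone : ∀ β ∈ S0, ∀ β' ∈ S0, β ≠ β' → ‖τ β - τ β'‖ = 1 := by
    intro β hβ β' hβ' hne
    have hmem : β - β' ∈ D1 := by
      rw [hD1, Finset.mem_image]
      exact ⟨(β, β'), Finset.mem_product.2 ⟨hβ, hβ'⟩, rfl⟩
    have h1 := (hFr (β - β') (by simp [hD, hmem])).1
    have h2 := (hFr (β - β')⁻¹ (by
      rw [hD]
      exact Finset.mem_union_right _ (Finset.mem_image_of_mem _ hmem))).1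
    rw [map_inv₀, norm_inv, map_sub] at h2
    rw [map_sub] at h1
    have h3 : 0 < ‖τ β - τ β'‖ := by
      rw [norm_pos_iff, ← map_sub, _root_.map_ne_zero, sub_ne_zero]
      exact hne
    apply le_antisymm h1
    rwa [inv_le_one₀ h3] at h2
  have hcomp : τ.comp (Int.castRingHom Om) = Int.castRingHom ℂ_[p] := RingHom.ext_int _ _
  set Pc : ℂ_[p][X] := P.map (Int.castRingHom ℂ_[p]) with hPc
  have hPcτ : Pc = PO.map τ := by rw [hPO, Polynomial.map_map, hcomp]
  set α : Fin m → ℂ_[p] := fun i => τ (a i) with hα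
  have hPcα : Pc = ∏ i, (X - C (α i)) := by
    rw [hPcτ, ha, Polynomial.map_prod]
    simp [hα]
  have hα1 : ∀ i, ‖α i‖ ≤ 1 := fun i => (hFr0 _ (hS0a i)).1
  refine ⟨α, hPcα, hα1, fun i j hij => hone _ (hS0a i) _ (hS0a j) (fun h => hij (hainj h)), ?_⟩
  intro t₀
  have ht0 : ‖(t₀ : ℂ_[p])‖ ≤ 1 := norm_int p t₀
  -- the polynomial at `t₀`
  set F : ℤ[X] := (X - C t₀) * P - 1 with hF
  have hFc : F.map (Int.castRingHom ℂ_[p]) = (X - C (t₀ : ℂ_[p])) * Pc - 1 := by
    rw [hF, Polynomial.map_sub, Polynomial.map_mul, Polynomial.map_sub, Polynomial.map_X,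
      Polynomial.map_C, Polynomial.map_one]
    simp [hPc]
  have hFm : F.Monic := by
    have h1 : ((X - C t₀) * P).Monic := (monic_X_sub_C _).mul hP
    rw [hF, sub_eq_add_neg]
    apply h1.add_of_left
    rw [degree_neg, degree_one, Polynomial.degree_mul, degree_X_sub_C]
    have h2 : (0 : WithBot ℕ) ≤ P.degree := by
      rw [Polynomial.degree_eq_natDegree hP.ne_zero]
      exact_mod_cast Nat.zero_le _
    calc (0 : WithBot ℕ) < 1 := by exact_mod_cast Nat.one_pos
      _ ≤ 1 + P.degree := le_add_of_nonneg_right h2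
  obtain ⟨N, hN⟩ : ∃ N, (F.map (Int.castRingHom ℂ_[p])).natDegree = N := ⟨_, rfl⟩
  obtain ⟨y, hy⟩ := idx (F.map (Int.castRingHom ℂ_[p])) (hFm.map _) N hN
  have hy0 : ∀ j, (y j - (t₀ : ℂ_[p])) * ∏ i, (y j - α i) = 1 := by
    intro j
    have h1 : (F.map (Int.castRingHom ℂ_[p])).eval (y j) = 0 := by
      rw [hy, eval_prod]
      exact Finset.prod_eq_zero (Finset.mem_univ j) (by simp)
    rw [hFc, eval_sub, eval_mul, hPcα, eval_prod] at h1
    simpa [sub_eq_zero] using h1
  have hy1 : ∀ j, ‖y j‖ ≤ 1 := fun j => norm_le_of_prod α hα1 _ _ ht0 (hy0 j)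
  have hyα : ∀ j i, ‖y j - α i‖ = 1 := fun j i => norm_sub_of_prod α hα1 _ _ ht0 (hy0 j) i
  have hPy : ∀ j, ‖Pc.eval (y j)‖ = 1 := by
    intro j
    rw [hPcα, eval_prod, norm_prod]
    exact Finset.prod_eq_one fun i _ => by simpa using hyα j i
  by_cases hcase : ∃ i j, i ≠ j ∧ ‖y i - y j‖ < 1
  · -- ramified class
    obtain ⟨i, j, hij, hlt⟩ := hcase
    have hR : F.map (Int.castRingHom ℂ_[p]) = (X - C (y i)) * ((X - C (y j)) *
        ∏ k ∈ (Finset.univ.erase i).erase j, (X - C (y k))) := by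
      rw [hy, ← Finset.mul_prod_erase Finset.univ _ (Finset.mem_univ i)]
      congr 1
      rw [← Finset.mul_prod_erase (Finset.univ.erase i) _
        (Finset.mem_erase.2 ⟨hij.symm, Finset.mem_univ j⟩)]
    have hder : (derivative (F.map (Int.castRingHom ℂ_[p]))).eval (y i) =
        (y i - y j) * ∏ k ∈ (Finset.univ.erase i).erase j, (y i - y k) := by
      rw [hR, derivative_mul, eval_add, eval_mul, eval_mul]
      simp [eval_prod]
    have hdern : ‖(derivative (F.map (Int.castRingHom ℂ_[p]))).eval (y i)‖ < 1 := by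
      rw [hder, norm_mul, norm_prod]
      calc ‖y i - y j‖ * ∏ k ∈ (Finset.univ.erase i).erase j, ‖y i - y k‖
          ≤ ‖y i - y j‖ * 1 := by
            apply mul_le_mul_of_nonneg_left _ (norm_nonneg _)
            exact Finset.prod_le_one (fun _ _ => norm_nonneg _)
              (fun k _ => norm_sub_le (hy1 i) (hy1 k))
        _ < 1 := by rw [mul_one]; exact hlt
    have hder2 : (derivative (F.map (Int.castRingHom ℂ_[p]))).eval (y i) =
        Pc.eval (y i) + (y i - (t₀ : ℂ_[p])) * (derivative Pc).eval (y i) := by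
      rw [hFc]
      simp [derivative_mul]
    have hty : (y i - (t₀ : ℂ_[p])) * Pc.eval (y i) = 1 := by
      have := hy0 i
      rw [hPcα, eval_prod]
      simpa using this
    have hGy : (G.map (Int.castRingHom ℂ_[p])).eval (y i) =
        Pc.eval (y i) * (derivative (F.map (Int.castRingHom ℂ_[p]))).eval (y i) := by
      rw [hder2, hG, Polynomial.map_add, Polynomial.map_pow, ← derivative_map, eval_add, eval_pow]
      linear_combination (-(derivative Pc).eval (y i)) * hty
    have hGn : ‖(G.map (Int.castRingHom ℂ_[p])).eval (y i)‖ < 1 := by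
      rw [hGy, norm_mul, hPy, one_mul]
      exact hdern
    have hGp : (G.map (Int.castRingHom ℂ_[p])).eval (y i) = ∏ k, (y i - τ (b k)) := by
      have h1 : G.map (Int.castRingHom ℂ_[p]) = GO.map τ := by
        rw [hGO, Polynomial.map_map, hcomp]
      rw [h1]
      conv_lhs => rw [hb]
      rw [Polynomial.map_prod, eval_prod]
      simp
    obtain ⟨k, hk⟩ : ∃ k, ‖y i - τ (b k)‖ < 1 := by
      by_contra hc
      push Not at hc
      rw [hGp, norm_prod] at hGn
      have : 1 ≤ ∏ k, ‖y i - τ (b k)‖ := by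
        calc (1 : ℝ) = ∏ _k : Fin GO.natDegree, (1 : ℝ) := by simp
          _ ≤ _ := Finset.prod_le_prod (fun _ _ => zero_le_one) (fun k _ => hc k)
      linarith
    have hbk : ‖τ (b k)‖ ≤ 1 := by
      have : τ (b k) = y i - (y i - τ (b k)) := by ring
      rw [this]
      exact norm_sub_le (hy1 i) hk.le
    have hbα : ∀ i', ‖τ (b k) - α i'‖ = 1 := by
      intro i'
      have h1 : τ (b k) - α i' = (y i - α i') + -(y i - τ (b k)) := by ring
      rw [h1, IsUltrametricDist.norm_add_eq_max_of_norm_ne_norm, norm_neg, hyα, max_eq_left hk.le]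
      rw [norm_neg, hyα]
      exact hk.ne'
    have hPbn : ‖Pc.eval (τ (b k))‖ = 1 := by
      rw [hPcα, eval_prod, norm_prod]
      exact Finset.prod_eq_one fun i' _ => by simpa using hbα i'
    have hPsub : ‖Pc.eval (τ (b k)) - Pc.eval (y i)‖ < 1 := by
      refine lt_of_le_of_lt (norm_eval_sub P hbk (hy1 i)) ?_
      rw [norm_sub_rev]
      exact hk
    have hPy0 : Pc.eval (y i) ≠ 0 := by
      intro h0; have := hPy i; rw [h0, norm_zero] at this; exact zero_ne_one this
    have hPb0 : Pc.eval (τ (b k)) ≠ 0 := by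
      intro h0; rw [h0, norm_zero] at hPbn; exact zero_ne_one hPbn
    have htk : τ (tt k) = τ (b k) - (Pc.eval (τ (b k)))⁻¹ := by
      have e : Pc.eval (τ (b k)) = τ (PO.eval (b k)) := by
        rw [hPcτ]
        exact Polynomial.eval_map_apply _ _
      rw [e, htt]
      simp only
      rw [map_sub, map_inv₀]
    have ht0y : (t₀ : ℂ_[p]) = y i - (Pc.eval (y i))⁻¹ := by
      rw [← eq_inv_of_mul_eq_one_left hty]
      ring
    have hdiff : ‖(t₀ : ℂ_[p]) - τ (tt k)‖ < 1 := by
      have h1 : (t₀ : ℂ_[p]) - τ (tt k) = (y i - τ (b k)) +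
          ((Pc.eval (y i) - Pc.eval (τ (b k))) * ((Pc.eval (y i))⁻¹ * (Pc.eval (τ (b k)))⁻¹)) := by
        rw [htk, ht0y]
        field_simp
        ring
      rw [h1]
      refine lt_of_le_of_lt (IsUltrametricDist.norm_add_le_max _ _) (max_lt hk ?_)
      rw [norm_mul, norm_mul, norm_inv, norm_inv, hPy, hPbn, inv_one, mul_one, mul_one,
        norm_sub_rev]
      exact hPsub
    refine ⟨τ (tt k), ?_, ?_⟩
    · exact fr4 _ (fr1 _ _ (fr3 t₀) (hFr0 _ (hS0t k))) hdiff
    · -- the factorisation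
      set R := (FO k).roots.toFinset with hRdef
      have hfac : FO k = ∏ x ∈ R, (X - C x) ^ (FO k).rootMultiplicity x := by
        have h3 := (IsAlgClosed.splits (FO k)).eq_prod_roots
        rw [(hFOm k).leadingCoeff, C_1, one_mul] at h3
        rw [hRdef, ← Polynomial.prod_multiset_root_eq_finset_root]
        exact h3
      let ε := R.equivFin
      have hxa : ∀ (c : Fin R.card) (i' : Fin m), ((ε.symm c : R) : Om) ≠ a i' := by
        intro c i' h0
        have hmem : ((ε.symm c : R) : Om) ∈ (FO k).roots.toFinset := (ε.symm c).2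
        rw [Multiset.mem_toFinset, Polynomial.mem_roots (hFOm k).ne_zero, h0] at hmem
        have h1 : (FO k).eval (a i') = 0 := hmem
        have h2 : PO.eval (a i') = 0 := by
          rw [ha, eval_prod]
          exact Finset.prod_eq_zero (Finset.mem_univ i') (by simp)
        rw [hFO] at h1
        simp only at h1
        rw [eval_sub, eval_mul, h2] at h1
        simp at h1
      refine ⟨R.card, fun c => τ ((ε.symm c : R) : Om),
        fun c => (FO k).rootMultiplicity ((ε.symm c : R) : Om), ?_, ?_, ?_, ?_, ?_⟩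
      · intro c
        have hmem : ((ε.symm c : R) : Om) ∈ (FO k).roots.toFinset := (ε.symm c).2
        rw [Multiset.mem_toFinset] at hmem
        exact (Polynomial.rootMultiplicity_pos (hFOm k).ne_zero).2
          ((Polynomial.mem_roots (hFOm k).ne_zero).1 hmem)
      · have h1 : (X - C (τ (tt k))) * ∏ i, (X - C (α i)) - 1 = (FO k).map τ := by
          rw [hFO]
          simp only
          rw [Polynomial.map_sub, Polynomial.map_mul, Polynomial.map_sub, Polynomial.map_X,
            Polynomial.map_C, Polynomial.map_one, ← hPcτ, hPcα]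
        rw [h1]
        conv_lhs => rw [hfac]
        rw [Polynomial.map_prod, ← Finset.prod_coe_sort, ← Equiv.prod_comp ε.symm]
        refine Finset.prod_congr rfl fun c _ => ?_
        rw [Polynomial.map_pow, Polynomial.map_sub, Polynomial.map_X, Polynomial.map_C]
      · intro c c' hcc
        refine hone _ (hS0r k _ (ε.symm c).2) _ (hS0r k _ (ε.symm c').2) ?_
        intro h0
        exact hcc (ε.symm.injective (Subtype.ext h0))
      · intro c i'
        exact hone _ (hS0r k _ (ε.symm c).2) _ (hS0a i') (hxa c i')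
      · intro c i'
        exact fr5 hp2 L hL _ (fr1 _ _ (hFr0 _ (hS0r k _ (ε.symm c).2)) (hFr0 _ (hS0a i')))
          (hone _ (hS0r k _ (ε.symm c).2) _ (hS0a i') (hxa c i'))
  · -- unramified class
    push Not at hcase
    have hsepF : (F.map (Int.castRingHom (ZMod p))).Separable := by
      by_contra hns
      obtain ⟨i, j, hij, hlt⟩ := hSEPR p N F y hy hns
      exact absurd hlt (not_lt.2 (hcase i j hij))
    refine ⟨(t₀ : ℂ_[p]), by simp, N, y, fun _ => 1, fun _ => le_rfl, ?_, ?_, hyα, ?_⟩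
    · simp only [pow_one]
      rw [← hy, hFc, hPcα]
    · intro i j hij
      exact le_antisymm (norm_sub_le (hy1 i) (hy1 j)) (hcase i j hij)
    · intro j i
      apply fr5 hp2 L hL _ _ (hyα j i)
      refine fr1 _ _ (hFRS p F hFm hsepF _ ?_) (hFr0 _ (hS0a i))
      have h1 : (F.map (Int.castRingHom ℂ_[p])).eval (y j) = 0 := by
        rw [hy, eval_prod]
        exact Finset.prod_eq_zero (Finset.mem_univ j) (by simp)
      have e : algebraMap ℤ ℂ_[p] = Int.castRingHom ℂ_[p] := RingHom.ext_int _ _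
      rw [aeval_def, e, ← eval_map]
      exact h1

end Pool.Agent.W753.LF
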